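import Pool.Agent.Helper68.SG2.GoalsT

/-!
# Project SG stage 2 (MP_a41896_nt), packet SH2-NZFT: nonvanishing for elliptic curves and `G_m`
-/

set_option autoImplicit false

namespace Pool.Agent.Helper60.SG2

open WeierstrassCurve
open Pool.Agent.Helper29.BL Pool.Agent.Helper92.Ru Pool.Agent.Helper42.SG Pool.Agent.Helper68.SG2

/-- `ψ(P)^2 = B(x(P))` for `P ≠ 0` -/
theorem nzt_ps {F : Type} [Field F] (W : Affine F) (P : W.Point) (hP : P ≠ 0) :
    ps P ^ 2 = Bf W (xc P) := by
  cases P with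
  | zero => exact absurd rfl hP
  | some x y h =>
    have h1 := h.1
    rw [Affine.equation_iff] at h1
    simp only [ps, xc, Bf, WeierstrassCurve.b₂, WeierstrassCurve.b₄, WeierstrassCurve.b₆]
    linear_combination 4 * h1

/-- the point with given `x` and `ψ` -/
theorem nzt_pt {F : Type} [Field F] [CharZero F] (W : Affine F) [W.IsElliptic] (x ψ : F)
    (h : ψ ^ 2 = Bf W x) : ∃ Q : W.Point, Q ≠ 0 ∧ xc Q = x ∧ ps Q = ψ := by
  have heq : W.Equation x ((ψ - W.a₁ * x - W.a₃) / 2) := by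
    rw [Affine.equation_iff]
    simp only [Bf, WeierstrassCurve.b₂, WeierstrassCurve.b₄, WeierstrassCurve.b₆] at h
    field_simp
    linear_combination h
  refine ⟨Affine.Point.some x ((ψ - W.a₁ * x - W.a₃) / 2) ((W.equation_iff_nonsingular).mp heq),
    Affine.Point.some_ne_zero _, rfl, ?_⟩
  simp only [ps]
  field_simp
  ring

/-- the successive choice of the points -/
theorem nzt_choice (Ω : Type) [Field Ω] (N : ℕ) :
    ∀ (I : Fin N → Type) [∀ h, Fintype (I h)] (Pt : Fin N → Type)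
      (w : ∀ h, Pt h → ℤˣ → I h → Ω),
      (∀ (h : Fin N) (ι : Type) [Finite ι] (a : ι → I h → Ω), (∀ k, a k ≠ 0) →
        ∃ p : Pt h, ∀ (k : ι) (s : ℤˣ), ∑ α : I h, a k α * w h p s α ≠ 0) →
      ∀ (ι : Type) [Finite ι] (a : ι → (∀ h, I h) → Ω), (∀ k, a k ≠ 0) →
        ∃ p : ∀ h, Pt h, ∀ (k : ι) (s : Fin N → ℤˣ),
          ∑ α : (∀ h, I h), a k α * ∏ h, w h (p h) (s h) (α h) ≠ 0 := by
  induction N with
  | zero =>
    intro I _ Pt w hw ι _ a ha
    refine ⟨fun h => h.elim0, fun k s => ?_⟩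
    obtain ⟨α, hα⟩ := Function.ne_iff.mp (ha k)
    have h1 : (∑ α : (∀ h, I h), a k α * ∏ h : Fin 0, w h (h.elim0) (s h) (α h)) = a k α := by
      rw [Fintype.sum_eq_single α]
      · simp
      · intro β hβ
        exact absurd (Subsingleton.elim β α) hβ
    rw [h1]
    exact hα
  | succ N ih =>
    intro I _ Pt w hw ι _ a ha
    have h1 : ∀ k, ∃ α : (∀ h, I h), a k α ≠ 0 := fun k => Function.ne_iff.mp (ha k)
    choose α hα using h1
    obtain ⟨p0, hp0⟩ := hw 0 ι (fun k x => a k (Fin.cons x (fun h => α k h.succ))) (by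
      intro k
      refine Function.ne_iff.mpr ⟨α k 0, ?_⟩
      have h2 : (Fin.cons (α k 0) (fun h => α k h.succ) : ∀ h, I h) = α k := Fin.cons_self_tail _
      simp only [h2]
      exact hα k)
    obtain ⟨p, hp⟩ := ih (fun h => I h.succ) (fun h => Pt h.succ) (fun h => w h.succ)
      (fun h ι _ a ha => hw h.succ ι a ha) (ι × ℤˣ)
      (fun k β => ∑ x : I 0, a k.1 (Fin.cons x β) * w 0 p0 k.2 x) (by
        intro k
        refine Function.ne_iff.mpr ⟨fun h => α k.1 h.succ, ?_⟩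
        exact hp0 k.1 k.2)
    refine ⟨Fin.cons p0 p, fun k s => ?_⟩
    have h3 := hp (k, s 0) (fun h => s h.succ)
    refine fun h4 => h3 ?_
    rw [← h4, ← (Fin.consEquiv I).sum_comp, Fintype.sum_prod_type_right]
    refine Finset.sum_congr rfl fun β _ => ?_
    rw [Finset.sum_mul]
    refine Finset.sum_congr rfl fun x _ => ?_
    rw [Fin.prod_univ_succ]
    simp only [Fin.consEquiv, Equiv.coe_fn_mk, Fin.cons_zero, Fin.cons_succ]
    ring

/-- one variable of type `G_m` -/
theorem nzt_gm (Ω : Type) [Field Ω] [Infinite Ω] (q M : ℕ) (x0 : Ω) (hx0 : x0 ≠ 0)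
    (ι : Type) [Finite ι] (a : ι → Fin q × Fin (M + 1) → Ω) (ha : ∀ k, a k ≠ 0) :
    ∃ x : Ω, x ≠ 0 ∧ ∀ k, ∑ α : Fin q × Fin (M + 1),
      a k α * (x ^ (q * α.2.val + α.1.val) * x0 ^ (M - α.2.val)) ≠ 0 := by
  classical
  have := Fintype.ofFinite ι
  let P : ι → Polynomial Ω := fun k => ∑ α : Fin q × Fin (M + 1),
    Polynomial.monomial (q * α.2.val + α.1.val) (a k α * x0 ^ (M - α.2.val))
  have hP : ∀ k, P k ≠ 0 := by
    intro k h0
    obtain ⟨α, hα⟩ := Function.ne_iff.mp (ha k)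
    have h1 : (P k).coeff (q * α.2.val + α.1.val) = a k α * x0 ^ (M - α.2.val) := by
      simp only [P, Polynomial.finsetSum_coeff, Polynomial.coeff_monomial]
      rw [Finset.sum_eq_single α]
      · rw [if_pos rfl]
      · intro β _ hβ
        rw [if_neg]
        intro h2
        apply hβ
        have hq : 0 < q := lt_of_le_of_lt (Nat.zero_le _) α.1.2
        have h3 : β.1.val = α.1.val := by
          have h4 := congrArg (fun t => t % q) h2
          simp only [Nat.mul_add_mod] at h4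
          rwa [Nat.mod_eq_of_lt β.1.2, Nat.mod_eq_of_lt α.1.2] at h4
        have h5 : β.2.val = α.2.val := by
          rw [h3] at h2
          exact Nat.eq_of_mul_eq_mul_left hq (Nat.add_right_cancel h2)
        exact Prod.ext (Fin.ext h3) (Fin.ext h5)
      · intro h; exact absurd (Finset.mem_univ _) h
    rw [h0, Polynomial.coeff_zero] at h1
    rcases mul_eq_zero.1 h1.symm with h2 | h2
    · exact hα h2
    · exact pow_ne_zero _ hx0 h2
  have hne : Polynomial.X * ∏ k, P k ≠ 0 :=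
    mul_ne_zero Polynomial.X_ne_zero (Finset.prod_ne_zero_iff.2 fun k _ => hP k)
  obtain ⟨x, hx⟩ : ∃ x, (Polynomial.X * ∏ k, P k).eval x ≠ 0 := by
    by_contra hcon
    push Not at hcon
    exact hne (Polynomial.funext fun x => by rw [hcon x, Polynomial.eval_zero])
  rw [Polynomial.eval_mul, Polynomial.eval_X, Polynomial.eval_prod] at hx
  refine ⟨x, left_ne_zero_of_mul hx, fun k => ?_⟩
  have h1 := (Finset.prod_ne_zero_iff.1 (right_ne_zero_of_mul hx)) k (Finset.mem_univ _)
  have h2 : (P k).eval x = ∑ α : Fin q × Fin (M + 1),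
      a k α * (x ^ (q * α.2.val + α.1.val) * x0 ^ (M - α.2.val)) := by
    simp only [P, Polynomial.eval_finsetSum, Polynomial.eval_monomial]
    exact Finset.sum_congr rfl fun α _ => by ring
  rwa [h2] at h1

theorem t_NZFT (hN : NZV) : Pool.Agent.Helper68.SG2.NZFT := by
  classical
  intro K _ _ T W hW n M δ e c Ω _ _ _ X0 Ψ0 h0 hex
  have : CharZero Ω := charZero_of_injective_algebraMap (algebraMap K Ω).injective
  have hell : ∀ i, T i = false → (mapW Ω W i).IsElliptic := fun i hi => by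
    have := hW i hi
    unfold mapW
    infer_instance
  obtain ⟨α0, hα0⟩ := hex
  let Pt : Fin (2 * n) → Type := fun h => {x : Ω × Ω // (T (h.val % 2) = true → x.1 * x.2 = 1) ∧
    (T (h.val % 2) = false → x.2 ^ 2 = Bf (mapW Ω W (h.val % 2)) x.1)}
  let w : ∀ h : Fin (2 * n), Pt h → ℤˣ → Fin (4 ^ e (h.val / 2)) × Fin (M + 1) → Ω :=
    fun h P s α => if T (h.val % 2) = true then
        P.1.1 ^ (4 ^ e (h.val / 2) * α.2.val + α.1.val) * X0 (h.val % 2) ^ (M - α.2.val)
      else P.1.1 ^ α.1.val *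
        ((law (mapW Ω W (h.val % 2)) (e (h.val / 2)) false P.1.1 (X0 (h.val % 2))
          (((s : ℤ) : Ω) * P.1.2 * Ψ0 (h.val % 2))).1 ^ (M - α.2.val) *
          (law (mapW Ω W (h.val % 2)) (e (h.val / 2)) false P.1.1 (X0 (h.val % 2))
          (((s : ℤ) : Ω) * P.1.2 * Ψ0 (h.val % 2))).2 ^ α.2.val)
  obtain ⟨P, hP⟩ := nzt_choice Ω (2 * n)
    (fun h => Fin (4 ^ e (h.val / 2)) × Fin (M + 1)) Pt w
    (by
      intro h ι _ a ha
      have hlt : h.val % 2 < 2 := Nat.mod_lt _ (by norm_num)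
      by_cases hT : T (h.val % 2) = true
      · have hx0 : X0 (h.val % 2) ≠ 0 := left_ne_zero_of_mul_eq_one ((h0 _ hlt).1 hT)
        obtain ⟨x, hx1, hx2⟩ := nzt_gm Ω (4 ^ e (h.val / 2)) M (X0 (h.val % 2)) hx0 ι a ha
        refine ⟨⟨(x, x⁻¹), fun _ => mul_inv_cancel₀ hx1, fun h1 => ?_⟩, fun k s => ?_⟩
        · rw [hT] at h1
          exact absurd h1 (by simp)
        · simp only [w, if_pos hT]
          exact hx2 k
      · have hT' : T (h.val % 2) = false := by simpa using hT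
        have := hell _ hT'
        obtain ⟨Q, hQ0, hQ1, hQ2⟩ := nzt_pt (mapW Ω W (h.val % 2)) (X0 (h.val % 2))
          (Ψ0 (h.val % 2)) ((h0 _ hlt).2 hT')
        obtain ⟨P, hP0, hP⟩ := hN Ω (mapW Ω W (h.val % 2)) Q (e (h.val / 2)) M ι a hQ0 ha
        refine ⟨⟨(xc P, ps P), fun h1 => absurd h1 hT, fun _ => nzt_ps _ P hP0⟩, fun k s => ?_⟩
        have h1 := hP k s
        rw [hQ1, hQ2] at h1
        simp only [w, if_neg hT]
        exact h1)
    Unit (fun _ α => ∑ β : Fin 2 → Fin δ, algebraMap K Ω (c (α, β)) * ∏ i : Fin 2,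
      X0 i.val ^ (β i).val)
    (by
      intro _
      refine Function.ne_iff.mpr ⟨α0, ?_⟩
      exact hα0)
  let xP : ℕ → Ω := fun h => if hh : h < 2 * n then (P ⟨h, hh⟩).1.1 else X0 (h - 2 * n)
  let pP : ℕ → Ω := fun h => if hh : h < 2 * n then (P ⟨h, hh⟩).1.2 else Ψ0 (h - 2 * n)
  have hxP : ∀ h : Fin (2 * n), xP h.val = (P h).1.1 := fun h => by
    simp only [xP, h.2, dif_pos]
  have hpP : ∀ h : Fin (2 * n), pP h.val = (P h).1.2 := fun h => by
    simp only [pP, h.2, dif_pos]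
  have hxQ : ∀ i, xP (2 * n + i) = X0 i := fun i => by
    have h1 : ¬ (2 * n + i < 2 * n) := by omega
    have h2 : 2 * n + i - 2 * n = i := by omega
    simp only [xP, dif_neg h1]
    rw [h2]
  have hpQ : ∀ i, pP (2 * n + i) = Ψ0 i := fun i => by
    have h1 : ¬ (2 * n + i < 2 * n) := by omega
    have h2 : 2 * n + i - 2 * n = i := by omega
    simp only [pP, dif_neg h1]
    rw [h2]
  refine ⟨xP, pP, ?_, fun i _ => ⟨hxQ i, hpQ i⟩, ?_⟩
  · intro h hh
    by_cases h1 : h < 2 * n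
    · have h2 := hxP ⟨h, h1⟩
      have h3 := hpP ⟨h, h1⟩
      simp only at h2 h3
      rw [h2, h3]
      exact (P ⟨h, h1⟩).2
    · obtain ⟨i, rfl⟩ : ∃ i, h = 2 * n + i := ⟨h - 2 * n, by omega⟩
      have h2 : (2 * n + i) % 2 = i := by omega
      rw [hxQ, hpQ, h2]
      exact h0 i (by omega)
  · intro ε h1
    apply hP () (fun h => ε h.val)
    rw [← h1]
    unfold PT
    rw [Fintype.sum_prod_type]
    refine Finset.sum_congr rfl fun α _ => ?_
    rw [Finset.sum_mul]
    refine Finset.sum_congr rfl fun β _ => ?_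
    have h2 : ∀ h : Fin (2 * n), blk T (mapW Ω W) n M e (fun _ => false) xP
        (fun h => if h < 2 * n then ((ε h : ℤ) : Ω) * pP h else pP h) h.val
          (α h).1.val (α h).2.val = w h (P h) (ε h.val) (α h) := by
      intro h
      have h4 : ¬ (2 * n + h.val % 2 < 2 * n) := by omega
      unfold blk lawV
      simp only [h.2, if_true, if_neg h4, w]
      rw [hxQ, hpQ, hxP, hpP]
      rfl
    simp only [h2, hxQ]
    ring

end Pool.Agent.Helper60.SG2
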